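import Pool.Agent.BEO.Stmts

/-!
# Squad BEO, row IBO: integration by parts against a polynomial (port of row IBP of squad BEB)
-/

set_option autoImplicit false

namespace Pool.Agent.BEO.H60

open Set Filter Topology MeasureTheory
open scoped InnerProductSpace ENNReal
open Pool.Agent.BE01 Pool.Agent.BEO

variable {d : ℕ}

/-- the basis vectors -/
noncomputable def ee (i : Fin d) : En d := EuclideanSpace.basisFun (Fin d) ℝ i

theorem inner_grad (f : En d → ℝ) (x v : En d) : ⟪gradient f x, v⟫_ℝ = fderiv ℝ f x v :=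
  InnerProductSpace.toDual_symm_apply

theorem grad_coord (f : En d → ℝ) (x : En d) (i : Fin d) : gradient f x i = fderiv ℝ f x (ee i) := by
  rw [← inner_grad, real_inner_comm]
  unfold ee
  rw [← OrthonormalBasis.repr_apply_apply]
  rfl

theorem inner_sum (f g : En d → ℝ) (x : En d) :
    ⟪gradient f x, gradient g x⟫_ℝ = ∑ i : Fin d, fderiv ℝ f x (ee i) * gradient g x i := by
  rw [PiLp.inner_apply]
  refine Finset.sum_congr rfl fun i _ => ?_
  rw [← grad_coord]
  simp only [RCLike.inner_apply, conj_trivial]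
  ring

theorem ev_sum (P : Pl d) (x : En d) :
    ev (lap P) x = ∑ i : Fin d, ev (MvPolynomial.pderiv i (MvPolynomial.pderiv i P)) x := by
  unfold ev lap
  rw [map_sum]

theorem memLp_cont {F : Type*} [NormedAddCommGroup F] {f : En d → F} (hf : Continuous f)
    {Ω : Set (En d)} (hΩ : Dom Ω) : MemLp f 2 (mu Ω) := by
  obtain ⟨R, hR⟩ := hΩ.2.1.subset_closedBall (0 : En d)
  obtain ⟨C, hC⟩ := (isCompact_closedBall (0 : En d) R).exists_bound_of_continuousOn
    hf.continuousOn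
  have hfin : IsFiniteMeasure (mu Ω) := ⟨by
    unfold mu
    rw [Measure.restrict_apply_univ]
    exact hΩ.2.1.measure_lt_top⟩
  refine MemLp.of_bound hf.aestronglyMeasurable C ?_
  unfold mu
  exact ae_restrict_of_forall_mem hΩ.1.measurableSet fun x hx => hC x (hR hx)

theorem zero_off {Ω : Set (En d)} {ψ : En d → ℝ} (h : Tst Ω ψ) {x : En d} (hx : x ∉ Ω) :
    ψ x = 0 ∧ fderiv ℝ ψ x = 0 := by
  have h1 : x ∉ tsupport ψ := fun h2 => hx (h.2.2 h2)
  exact ⟨image_eq_zero_of_notMem_tsupport h1, fderiv_of_notMem_tsupport ℝ h1⟩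

/-- one coordinate -/
theorem one (hev : EvoStmt) {Ω : Set (En d)} {ψ : En d → ℝ} (h : Tst Ω ψ) (Q : Pl d) (i : Fin d) :
    Integrable (fun x => fderiv ℝ ψ x (ee i) * ev Q x) ∧
    Integrable (fun x => ψ x * ev (MvPolynomial.pderiv i Q) x) ∧
    ∫ x, ψ x * ev (MvPolynomial.pderiv i Q) x = - ∫ x, fderiv ℝ ψ x (ee i) * ev Q x := by
  have hsm := (hev d).1
  have hgr := (hev d).2.1
  have hc : ∀ Q : Pl d, Continuous (ev Q) := fun Q => (hsm Q).continuous
  have hψ : Continuous ψ := h.1.continuous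
  have hdψ : Continuous (fderiv ℝ ψ) := h.1.continuous_fderiv (by simp)
  have hdi : Continuous fun x => fderiv ℝ ψ x (ee i) := hdψ.clm_apply continuous_const
  have hsi : HasCompactSupport fun x => fderiv ℝ ψ x (ee i) := h.2.1.fderiv_apply (𝕜 := ℝ) (ee i)
  have i1 : Integrable (fun x => fderiv ℝ ψ x (ee i) * ev Q x) :=
    (hdi.mul (hc Q)).integrable_of_hasCompactSupport hsi.mul_right
  have i2 : Integrable (fun x => ψ x * ev (MvPolynomial.pderiv i Q) x) :=
    (hψ.mul (hc _)).integrable_of_hasCompactSupport h.2.1.mul_right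
  have i3 : Integrable (fun x => ψ x * ev Q x) :=
    (hψ.mul (hc _)).integrable_of_hasCompactSupport h.2.1.mul_right
  refine ⟨i1, i2, ?_⟩
  have e : ∀ x, fderiv ℝ (ev Q) x (ee i) = ev (MvPolynomial.pderiv i Q) x := fun x => by
    rw [← grad_coord, hgr]
  have i2' : Integrable (fun x => ψ x * fderiv ℝ (ev Q) x (ee i)) := by
    simpa only [e] using i2
  have h1 := integral_mul_fderiv_eq_neg_fderiv_mul_of_integrable (μ := volume) (f := ψ)
    (g := ev Q) (v := ee i) i1 i2' i3 (fun x _ => (h.1.differentiable (by simp)) x)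
    (fun x _ => ((hsm Q).differentiable (by simp)) x)
  simpa only [e] using h1

/-- test functions -/
theorem tst (hev : EvoStmt) {Ω : Set (En d)} {ψ : En d → ℝ} (h : Tst Ω ψ) (P : Pl d) :
    ∫ x, ⟪gradient ψ x, gradient (ev P) x⟫_ℝ ∂(mu Ω) = - ∫ x, ψ x * ev (lap P) x ∂(mu Ω) := by
  unfold mu
  rw [setIntegral_eq_integral_of_forall_compl_eq_zero (fun x hx => by
      rw [inner_grad, (zero_off h hx).2]; rfl),
    setIntegral_eq_integral_of_forall_compl_eq_zero (fun x hx => by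
      rw [(zero_off h hx).1, zero_mul])]
  have e1 : ∀ x, ⟪gradient ψ x, gradient (ev P) x⟫_ℝ =
      ∑ i : Fin d, fderiv ℝ ψ x (ee i) * ev (MvPolynomial.pderiv i P) x := by
    intro x
    rw [inner_sum]
    exact Finset.sum_congr rfl fun i _ => by rw [(hev d).2.1]
  have e2 : ∀ x, ψ x * ev (lap P) x =
      ∑ i : Fin d, ψ x * ev (MvPolynomial.pderiv i (MvPolynomial.pderiv i P)) x := by
    intro x
    rw [ev_sum, Finset.mul_sum]
  simp only [e1, e2]
  rw [integral_finsetSum _ fun i _ => (one hev h (MvPolynomial.pderiv i P) i).1,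
    integral_finsetSum _ fun i _ => (one hev h (MvPolynomial.pderiv i P) i).2.1,
    ← Finset.sum_neg_distrib]
  refine Finset.sum_congr rfl fun i _ => ?_
  rw [(one hev h (MvPolynomial.pderiv i P) i).2.2, neg_neg]

/-- row IBO -/
theorem ibo (hev : EvoStmt) : IboStmt := by
  intro d Ω u G P hΩ hu
  have hgc : Continuous (gradient (ev P)) := by
    have h1 : Continuous (fderiv ℝ (ev P)) := ((hev d).1 P).continuous_fderiv (by simp)
    have h2 : gradient (ev P) =
        fun x => (InnerProductSpace.toDual ℝ (En d)).symm (fderiv ℝ (ev P) x) := rfl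
    rw [h2]
    exact (InnerProductSpace.toDual ℝ (En d)).symm.continuous.comp h1
  have ha : MemLp (gradient (ev P)) 2 (mu Ω) := memLp_cont hgc hΩ
  have hb : MemLp (ev (lap P)) 2 (mu Ω) := memLp_cont ((hev d).1 (lap P)).continuous hΩ
  have hG : ∀ G' : Lp (En d) 2 (mu Ω),
      ∫ x, ⟪G' x, gradient (ev P) x⟫_ℝ ∂(mu Ω) = ⟪G', ha.toLp _⟫_ℝ := by
    intro G'
    rw [L2.inner_def]
    refine integral_congr_ae ?_
    filter_upwards [ha.coeFn_toLp] with x hx
    rw [hx]
  have hU : ∀ u' : Lp ℝ 2 (mu Ω),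
      ∫ x, u' x * ev (lap P) x ∂(mu Ω) = ⟪u', hb.toLp _⟫_ℝ := by
    intro u'
    rw [L2.inner_def]
    refine integral_congr_ae ?_
    filter_upwards [hb.coeFn_toLp] with x hx
    rw [hx]
    simp only [RCLike.inner_apply, conj_trivial]
    ring
  rw [hG, hU]
  have hcl : IsClosed {Q : Lp ℝ 2 (mu Ω) × Lp (En d) 2 (mu Ω) |
      ⟪Q.2, ha.toLp _⟫_ℝ = - ⟪Q.1, hb.toLp _⟫_ℝ} :=
    isClosed_eq (continuous_snd.inner continuous_const)
      (continuous_fst.inner continuous_const).neg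
  have hsub : {Q : Lp ℝ 2 (mu Ω) × Lp (En d) 2 (mu Ω) |
      ∃ ψ, Tst Ω ψ ∧ Q.1 =ᵐ[mu Ω] ψ ∧ Q.2 =ᵐ[mu Ω] gradient ψ} ⊆
      {Q : Lp ℝ 2 (mu Ω) × Lp (En d) 2 (mu Ω) |
      ⟪Q.2, ha.toLp _⟫_ℝ = - ⟪Q.1, hb.toLp _⟫_ℝ} := by
    rintro ⟨q1, q2⟩ ⟨ψ, hψ, h1, h2⟩
    show ⟪q2, ha.toLp _⟫_ℝ = - ⟪q1, hb.toLp _⟫_ℝ
    rw [← hG, ← hU]
    have e1 : ∫ x, ⟪q2 x, gradient (ev P) x⟫_ℝ ∂(mu Ω) =
        ∫ x, ⟪gradient ψ x, gradient (ev P) x⟫_ℝ ∂(mu Ω) := by
      refine integral_congr_ae ?_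
      filter_upwards [h2] with x hx
      rw [hx]
    have e2 : ∫ x, q1 x * ev (lap P) x ∂(mu Ω) = ∫ x, ψ x * ev (lap P) x ∂(mu Ω) := by
      refine integral_congr_ae ?_
      filter_upwards [h1] with x hx
      rw [hx]
    rw [e1, e2]
    exact tst hev hψ P
  exact closure_minimal hsub hcl hu

end Pool.Agent.BEO.H60
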